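import Pool.Agent.X22.RM1

/-!
# Abelian varieties of `GL_2`-type with real multiplication by the maximal real subfield of a cyclotomic field, in arbitrarily thin families: sums over primes of the traces of Frobenius,
with all twists and at all heights

Nothing is used besides Mathlib in the statement.
-/

set_option autoImplicit false

namespace Pool.Agent.Results.MP_326854_nt.FewDigitRealMultiplication

open Finset

/-- The sum of `ψ (z)` over all `z ≠ 0` in the field with `p ^ 2` elements with `z ^ e = 1` and `z + 1 / z = y`; there are at most two such `z`. -/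
noncomputable def coefficient (p : ℕ) [Fact p.Prime] (e : ℕ) (ψ : MulChar (GaloisField p 2) ℂ) (y : ZMod p) : ℂ :=
  ∑ᶠ z ∈ {z : GaloisField p 2 | z ≠ 0 ∧ z ^ e = 1 ∧ z + z⁻¹ = algebraMap (ZMod p) (GaloisField p 2) y}, ψ z

/-- The sum `- ∑ g (y) χ (y + t) / √p` over the `y` modulo `p`, where `χ` is the Legendre symbol. For `g = coefficient p e ψ`, `e = p - 1` or `e = p + 1`, `ψ` of odd prime order `n` on the `z` with `z ^ e = 1`, this
is the normalised trace of Frobenius at `p` on the `ψ`-part of the Jacobian of `Y ^ 2 = D_n (X) + t`, `D_n (X + 1 / X) = X ^ n + X ^ (-n)`. -/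
noncomputable def trace (p : ℕ) (g : ZMod p → ℂ) (t : ZMod p) : ℂ :=
  if hp : p.Prime then
    haveI : Fact p.Prime := ⟨hp⟩
    (-(∑ y : ZMod p, g y * (quadraticChar (ZMod p) (y + t) : ℂ))) / ((√(p : ℝ) : ℝ) : ℂ)
  else 0

/-- The value of the linear polynomial `∑ a_l m_l + a'`. -/
def lin {d : ℕ} (a : Fin d → ℤ) (a' : ℤ) (m : Fin d → ℕ) : ℤ := ∑ l, a l * (m l : ℤ) + a'

/-- The sum `∑ w (p) T_p p ^ (- i τ)` over the odd primes `p ≤ x`, where the `T_p` are the traces for the functions `g_p` and `t = ∑ a_l m_l + a'`. -/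
noncomputable def partialSum (g : ∀ p : ℕ, ZMod p → ℂ) {d : ℕ} (a : Fin d → ℤ) (a' : ℤ) (m : Fin d → ℕ) (w : ℕ → ℂ) (τ : ℝ) (x : ℕ) : ℂ :=
  ∑ p ∈ (range (x + 1)).filter (fun p => p.Prime ∧ p ≠ 2),
    w p * trace p (g p) (lin a a' m : ℤ) * Complex.exp (((-(τ * Real.log p) : ℝ) : ℂ) * Complex.I)

/-- The digit number `i` (counted from the right, beginning with `0`) of `n` in base `b`. -/
def digit (b i n : ℕ) : ℕ := n / b ^ i % b

/-- The number which arises from the number `N` with at most `K` digits in base `b`, if for every `i ∈ S`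
the digit number `i` is replaced by `f i`. -/
def change (b K N : ℕ) (f : ℕ → ℕ) (S : Finset ℕ) : ℕ :=
  ∑ i ∈ range K, (if i ∈ S then f i else digit b i N) * b ^ i

open Classical in
/-- The number of the choices of `s l` of `K l` positions for all `l < d` for which the vector of the numbers obtained by
changing the digits of the `N l` at the chosen positions (according to `f l`) does not have the property `P`. -/
noncomputable def exceptions {d : ℕ} (b : ℕ) (K s N : Fin d → ℕ) (f : Fin d → ℕ → ℕ) (P : (Fin d → ℕ) → Prop) : ℕ :=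
  ((Fintype.piFinset (fun l => powersetCard (s l) (range (K l)))).filter
    (fun S => ¬ P (fun l => change b (K l) (N l) (f l) (S l)))).card

open Pool.Agent.X22.ND (op mem_op mzc_law absorb hp norm_hp mean_mono cardop_le mean_add')
open Pool.Agent.TH894.NE (mean mean_mul mean_const)

lemma trace_eq (p : ℕ) (hp' : p.Prime) (g : ZMod p → ℂ) (t : ZMod p) : haveI : Fact p.Prime := ⟨hp'⟩
    trace p g t = -(Pool.Agent.X22.RM.cv g t) / ((√(p : ℝ) : ℝ) : ℂ) := by
  unfold trace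
  rw [dif_pos hp']
  rfl

lemma lin_eq (p : ℕ) {d : ℕ} (a : Fin d → ℤ) (a' : ℤ) (m : Fin d → ℕ) : ((lin a a' m : ℤ) : ZMod p) = (∑ l, (a l : ZMod p) * (m l : ZMod p)) + a' := by
  unfold lin
  push_cast
  rfl

/-- **Real multiplication.** (1) The absolute values of the coefficients `∑ ψ (z)` (the sum over `z ≠ 0`, `z ^ e = 1`, `z + 1 / z = y`) are at most `2`.

(2) Let a base `b ≥ 2`, integers `B ≥ 0`, `d ≥ 1`, `A ≥ 0` and `δ > 0` be given. There are `c > 0` and `y₀` such that for all integers `s l`, `K l` (`l < d`), `y` with `2 s l ≤ K l` and `y ≥ y₀`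
the following holds.

Let `0 ≤ N l < b ^ K l` be arbitrary integers, prescribe for every position `j` a digit `f l j` different from the digit of `N l` in base `b`, and let `Λ x` be for every `x` any set of at most `x ^ A` systems, each
of them consisting of a function `w` with `|w (p)| ≤ 1`, of functions `g_p` on the residues modulo `p` with `|g_p (y)| ≤ B` (for instance, if `B ≥ 2`, the coefficients of (1) for arbitrary exponents `e_p` and characters
`ψ_p`), and of integers `a_l`, `a'` with `a_l = 1` for some `l`.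
If one chooses `s l` of the `K l` positions and replaces the digits of `N l` at these positions, then for all but at most a proportion `1 / y ^ A` of the choices the vector `m` obtained has the following property:
for all integers `x` with `y ≤ x ≤ exp (c s l)` for all `l`, all systems of `Λ x` and all real `τ` with `|τ| ≤ x ^ A` we have `|∑ w (p) T_p p ^ (- i τ)| ≤ x ^ (1 / 2 + δ)`, the sum running over the odd primes
`p ≤ x`; here `T_p = - ∑ g_p (y) χ_p (y + t) / √p`, `t = ∑ a_l m_l + a'`. -/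
theorem result :
    (∀ (p : ℕ) [Fact p.Prime] (e : ℕ) (ψ : MulChar (GaloisField p 2) ℂ) (y : ZMod p), ‖coefficient p e ψ y‖ ≤ 2) ∧
    ∀ (b B d : ℕ), 2 ≤ b → 1 ≤ d → ∀ δ : ℝ, 0 < δ → ∀ A : ℕ,
    ∃ c : ℝ, 0 < c ∧ ∃ y₀ : ℕ,
    ∀ (K s : Fin d → ℕ) (y : ℕ), (∀ l, 2 * s l ≤ K l) → y₀ ≤ y →
    ∀ N : Fin d → ℕ, (∀ l, N l < b ^ K l) → ∀ f : Fin d → ℕ → ℕ, (∀ l j, f l j < b ∧ f l j ≠ digit b j (N l)) →
    ∀ (κ : Type) (w : κ → ℕ → ℂ) (g : κ → ∀ p : ℕ, ZMod p → ℂ) (a : κ → Fin d → ℤ) (a' : κ → ℤ) (Λ : ℕ → Finset κ), (∀ q p, ‖w q p‖ ≤ 1) → (∀ q p u, ‖g q p u‖ ≤ B) →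
    (∀ q, ∃ l, a q l = 1) → (∀ x, (Λ x).card ≤ x ^ A) →
      (exceptions b K s N f (fun m => ∀ x : ℕ, y ≤ x → (∀ l, (x : ℝ) ≤ Real.exp (c * s l)) → ∀ q ∈ Λ x,
        ∀ τ : ℝ, |τ| ≤ (x : ℝ) ^ A → ‖partialSum (g q) (a q) (a' q) m (w q) τ x‖ ≤ (x : ℝ) ^ (1 / 2 + δ)) : ℝ) ≤
        1 / (y : ℝ) ^ A * ∏ l, ((K l).choose (s l) : ℝ) := by
  refine ⟨fun p _ e ψ y => Pool.Agent.X22.RM.co_le e ψ y, ?_⟩
  classical
  intro b B d hb hd δ hδ A
  obtain ⟨c, hc, y₀, h⟩ := mzc_law b d hb hd (δ / 2) (by positivity) A A A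
  have hW0 : (0 : ℝ) < B + 1 := by positivity
  obtain ⟨x₁, hx₁⟩ := absorb ((B : ℝ) + 1) (δ / 2) hW0.le (by positivity)
  refine ⟨c, hc, y₀ + x₁ + 2, fun K s y hsK hy N hN f hf κ w g a a' Λ hw hg ha hΛ => ?_⟩
  have hB0 : (0 : ℝ) ≤ B := Nat.cast_nonneg B
  have h2 := h K s y hsK (by omega) N hN f hf κ Λ (fun x _ => hΛ x)
    (fun x q p m => w q p * trace p (g q p) (lin (a q) (a' q) m : ℤ)) (fun x q p m _ => by
      show w q p * trace p (g q p) (lin (a q) (a' q) m : ℤ) = w q p * trace p (g q p) (lin (a q) (a' q) (fun i => m i % p) : ℤ)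
      congr 2
      rw [lin_eq, lin_eq]
      simp only [ZMod.natCast_mod])
    (fun x _ => ((B : ℝ) + 1) * Real.sqrt x) (fun x _ q _ => by positivity) ?_ ?_ ?_ ?_
    (fun m => ∀ x : ℕ, y ≤ x → (∀ l, (x : ℝ) ≤ Real.exp (c * s l)) → ∀ q ∈ Λ x,
        ∀ τ : ℝ, |τ| ≤ (x : ℝ) ^ A → ‖partialSum (g q) (a q) (a' q) m (w q) τ x‖ ≤ (x : ℝ) ^ (1 / 2 + δ)) ?_
  · unfold exceptions
    exact h2
  · -- the bound
    intro x hx q hq p hp' m
    rw [mem_op] at hp'
    have hf' : Fact p.Prime := ⟨hp'.2.1⟩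
    have hp0 : (0 : ℝ) < p := by exact_mod_cast hp'.2.1.pos
    have hs0 : 0 < √(p : ℝ) := Real.sqrt_pos.2 hp0
    rw [norm_mul, trace_eq p hp'.2.1, norm_div, norm_neg, Complex.norm_real, Real.norm_eq_abs, abs_of_pos hs0]
    have h3 := Pool.Agent.X22.RM.cv_le (g q p) B (hg q p) ((lin (a q) (a' q) m : ℤ) : ZMod p)
    have h5 : √(p : ℝ) ≤ √(x : ℝ) := Real.sqrt_le_sqrt (by exact_mod_cast hp'.1)
    have h6 : ‖Pool.Agent.X22.RM.cv (g q p) ((lin (a q) (a' q) m : ℤ) : ZMod p)‖ / √(p : ℝ) ≤ (B + 1) * √(x : ℝ) := by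
      rw [div_le_iff₀ hs0]
      calc _ ≤ (p : ℝ) * B := h3
        _ = B * (√(p : ℝ) * √(p : ℝ)) := by
            rw [Real.mul_self_sqrt hp0.le]
            ring
        _ ≤ (B + 1) * (√(x : ℝ) * √(p : ℝ)) := by
            gcongr
            linarith
        _ = _ := by ring
    calc ‖w q p‖ * (‖Pool.Agent.X22.RM.cv (g q p) ((lin (a q) (a' q) m : ℤ) : ZMod p)‖ / √(p : ℝ)) ≤ 1 * ((B + 1) * √(x : ℝ)) := by
          have := hw q p
          gcongr
      _ = _ := one_mul _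
  · -- the real parts
    intro x hx q hq p hp'
    rw [mem_op] at hp'
    have hf' : Fact p.Prime := ⟨hp'.2.1⟩
    obtain ⟨l₀, hl₀⟩ := ha q
    have h3 := Pool.Agent.X22.RM.mean_form (a q) (a' q) l₀ hl₀ (fun t => (w q p * (-(Pool.Agent.X22.RM.cv (g q p) t) / ((√(p : ℝ) : ℝ) : ℂ))).re)
    simp only [lin_eq, trace_eq p hp'.2.1]
    rw [h3, ← Complex.re_sum, ← mul_sum, ← sum_div, sum_neg_distrib, Pool.Agent.X22.RM.cv_sum hp'.2.2]
    simp
  · -- the imaginary parts
    intro x hx q hq p hp'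
    rw [mem_op] at hp'
    have hf' : Fact p.Prime := ⟨hp'.2.1⟩
    obtain ⟨l₀, hl₀⟩ := ha q
    have h3 := Pool.Agent.X22.RM.mean_form (a q) (a' q) l₀ hl₀ (fun t => (w q p * (-(Pool.Agent.X22.RM.cv (g q p) t) / ((√(p : ℝ) : ℝ) : ℂ))).im)
    simp only [lin_eq, trace_eq p hp'.2.1]
    rw [h3, ← Complex.im_sum, ← mul_sum, ← sum_div, sum_neg_distrib, Pool.Agent.X22.RM.cv_sum hp'.2.2]
    simp
  · -- the variance
    intro x hx q hq
    have hone : ∀ p ∈ op x, mean d p (fun m => ‖w q p * trace p (g q p) (lin (a q) (a' q) m : ℤ)‖ ^ 2) ≤ ((B : ℝ) + 1) ^ 2 := by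
      intro p hp'
      rw [mem_op] at hp'
      have hf' : Fact p.Prime := ⟨hp'.2.1⟩
      have hp0 : (0 : ℝ) < p := by exact_mod_cast hp'.2.1.pos
      obtain ⟨l₀, hl₀⟩ := ha q
      have h3 := Pool.Agent.X22.RM.mean_form (a q) (a' q) l₀ hl₀ (fun t => ‖w q p * (-(Pool.Agent.X22.RM.cv (g q p) t) / ((√(p : ℝ) : ℝ) : ℂ))‖ ^ 2)
      simp only [lin_eq, trace_eq p hp'.2.1]
      rw [h3]
      have h4 : ∀ t : ZMod p, ‖w q p * (-(Pool.Agent.X22.RM.cv (g q p) t) / ((√(p : ℝ) : ℝ) : ℂ))‖ ^ 2 ≤ ‖Pool.Agent.X22.RM.cv (g q p) t‖ ^ 2 / p := by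
        intro t
        rw [norm_mul, norm_div, norm_neg, Complex.norm_real, Real.norm_eq_abs, abs_of_nonneg (Real.sqrt_nonneg _), mul_pow, div_pow, Real.sq_sqrt hp0.le]
        have h5 : ‖w q p‖ ^ 2 ≤ 1 := pow_le_one₀ (norm_nonneg _) (hw q p)
        have h6 : 0 ≤ ‖Pool.Agent.X22.RM.cv (g q p) t‖ ^ 2 / p := by positivity
        nlinarith
      have h5 := Pool.Agent.X22.RM.cv_sq hp'.2.2 (g q p) B (hg q p)
      have h6 : ∑ t : ZMod p, ‖w q p * (-(Pool.Agent.X22.RM.cv (g q p) t) / ((√(p : ℝ) : ℝ) : ℂ))‖ ^ 2 ≤ p * (B : ℝ) ^ 2 := by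
        refine (sum_le_sum (fun t _ => h4 t)).trans ?_
        rw [← sum_div, div_le_iff₀ hp0]
        calc _ ≤ (p : ℝ) ^ 2 * (B : ℝ) ^ 2 := h5
          _ = _ := by ring
      rw [div_le_iff₀ hp0]
      calc _ ≤ (p : ℝ) * (B : ℝ) ^ 2 := h6
        _ ≤ (p : ℝ) * ((B : ℝ) + 1) ^ 2 := by
            gcongr
            linarith
        _ = _ := by ring
    refine (sum_le_sum hone).trans ?_
    rw [sum_const, nsmul_eq_mul, mul_pow, Real.sq_sqrt (Nat.cast_nonneg x), mul_comm]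
    have h4 := cardop_le x
    gcongr
  · -- the conclusion
    intro m hm x hyx hxr q hq τ hτ
    have hx0 : (0 : ℝ) < x := by exact_mod_cast (by omega : 0 < x)
    have hx1 : (1 : ℝ) ≤ x := by exact_mod_cast (by omega : 1 ≤ x)
    have hlx0 : 0 ≤ Real.log x := Real.log_natCast_nonneg x
    have h3 := hm x hyx hxr q hq τ hτ
    have e1 : partialSum (g q) (a q) (a' q) m (w q) τ x = ∑ p ∈ op x, w q p * trace p (g q p) (lin (a q) (a' q) m : ℤ) * hp τ p := by
      have hset : (range (x + 1)).filter (fun p => p.Prime ∧ p ≠ 2) = op x := by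
        ext p
        rw [mem_filter, mem_range, mem_op]
        constructor
        · rintro ⟨h5, h6⟩
          exact ⟨by omega, h6⟩
        · rintro ⟨h5, h6⟩
          exact ⟨by omega, h6⟩
      unfold partialSum
      rw [hset]
      rfl
    rw [e1]
    refine h3.trans ?_
    have h6 := hx₁ x (by omega)
    have hpow : (x : ℝ) ^ (1 / 2 + δ) = Real.sqrt x * ((x : ℝ) ^ (δ / 2) * (x : ℝ) ^ (δ / 2)) := by
      rw [← Real.rpow_add hx0, Real.sqrt_eq_rpow, ← Real.rpow_add hx0]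
      congr 1
      ring
    rw [hpow]
    have h7 : (B : ℝ) + 1 ≤ (x : ℝ) ^ (δ / 2) := by
      refine le_trans ?_ h6
      have : 0 ≤ ((B : ℝ) + 1) * Real.log x := by positivity
      linarith
    calc ((B : ℝ) + 1) * Real.sqrt x * (x : ℝ) ^ (δ / 2) = Real.sqrt x * (((B : ℝ) + 1) * (x : ℝ) ^ (δ / 2)) := by ring
      _ ≤ _ := by gcongr

end Pool.Agent.Results.MP_326854_nt.FewDigitRealMultiplication
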