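import Pool.Agent.X298.HT.Main

/-!
# Modularity of a `GL₂`-type abelian variety is decided by one sum of products `a_v(A) · Tr T_v`

Let `A` be an abelian variety of `GL₂(M)`-type over a totally real field `F` (the theorem is for any number field and for `GL_n`),
`τ : M → ℂ`, `S` a finite set of places containing the bad ones and those dividing the conductor, `π_v` the normalised Frobenius
eigenvalues of the `τ`-component of `A` at `v ∉ S` (two numbers of absolute value `1`). Let `(σ_i)` be the finite family of the newforms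
of parallel weight `2` whose level is the conductor of the `τ`-component, `tr σ_{i,v}^k` the traces of the powers of the normalised Satake
parameters (absolute value `1`), and `t_v(k) = ∑_i tr σ_{i,v}^k`, the trace of a Hecke operator on the space of newforms:
`t_v(1) = q_v^{-1/2} Tr T_v`. For `γ > π / 2`, `T > 0` consider

  `P(T) = ∑_{v ∉ S} tr π_v · conj t_v(1) · q_v^{-1} e^{iγu} / Γ(1 + u)`,   `u = log q_v / T`,

and the sum `H(T)` over the powers of the places, with `q_v^{-k} / k` and `u = k log q_v / T`. Suppose that each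
`L_S(s, π × σ_i~)` is meromorphic at the point `s = 1`, of order `-1` there if `A` is associated to `σ_i` (same parameters outside `S`),
and of order `0` otherwise. (This is known: `A` and `σ_i` are simultaneously potentially modular.) We show:

* both sums converge absolutely, and `H(T) = N (log T - Λ(γ)) + r + O(1/T)`, where `N` is the number of the members of the family to
  which `A` is associated (`0` or `1` by strong multiplicity one);
* `P(T) / log T → N` and `H(T) / log T → N`;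
* **`A` is modular if and only if the real part of `P(T)` is not bounded above for `T → ∞`**, if and only if it tends to `∞`; the same for
  `H(T)`.

The numbers `Tr T_v` are given by the trace formula, so no newform has to be known; nothing is assumed on zeros.
-/

set_option autoImplicit false

open Filter Topology
open IsDedekindDomain NumberField

namespace Pool.Agent.Results.MP_326854_nt.HeckeTraceCriterion

open Pool.Agent.X298.ST Pool.Agent.X298.II Pool.Agent.X298.HT

/-- **Modularity and one sum of products of Frobenius traces and Hecke traces.** -/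
theorem result {F : Type} [Field F] [NumberField F] (S : Set (HeightOneSpectrum (𝓞 F))) (n : ℕ)
    (π : Param S n) {I : Type} [Fintype I] (σ : I → Param S n) (Λ : I → ℂ → ℂ)
    (hc : ∀ i, IsCont (rs π (σ i)) 1 (Λ i))
    (hass : ∀ i, Assoc π (σ i) → meromorphicOrderAt (Λ i) 1 = ((-1 : ℤ) : WithTop ℤ))
    (hnot : ∀ i, ¬ Assoc π (σ i) → meromorphicOrderAt (Λ i) 1 = ((0 : ℤ) : WithTop ℤ))
    (γ : ℝ) (hγ : Real.pi / 2 < γ) :
    (∀ T : ℝ, 0 < T → (Summable fun x => ‖hTerm π σ γ T x‖) ∧ Summable fun v => ‖pTerm π σ γ T v‖) ∧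
    (∃ r : ℂ, (fun T : ℝ => hSum π σ γ T -
      (Nat.card {i // Assoc π (σ i)} * (Real.log T - Lambda γ) + r)) =O[atTop] (fun T : ℝ => 1 / T)) ∧
    Tendsto (fun T : ℝ => hSum π σ γ T / (Real.log T : ℂ)) atTop (𝓝 (Nat.card {i // Assoc π (σ i)} : ℂ)) ∧
    Tendsto (fun T : ℝ => pSum π σ γ T / (Real.log T : ℂ)) atTop (𝓝 (Nat.card {i // Assoc π (σ i)} : ℂ)) ∧
    ((∃ i, Assoc π (σ i)) ↔ Tendsto (fun T : ℝ => (pSum π σ γ T).re) atTop atTop) ∧
    ((∃ i, Assoc π (σ i)) ↔ ¬ ∃ C : ℝ, ∀ᶠ T : ℝ in atTop, (pSum π σ γ T).re ≤ C) ∧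
    ((∃ i, Assoc π (σ i)) ↔ Tendsto (fun T : ℝ => (hSum π σ γ T).re) atTop atTop) ∧
    ((∃ i, Assoc π (σ i)) ↔ ¬ ∃ C : ℝ, ∀ᶠ T : ℝ in atTop, (hSum π σ γ T).re ≤ C) := by
  classical
  obtain ⟨hp, C, hC⟩ := diff_bdd π σ γ
  set N : ℕ := Nat.card {i // Assoc π (σ i)} with hN
  have hNs : ∃ m : I → ℕ, (∀ i, meromorphicOrderAt (Λ i) 1 = ((-(m i : ℤ) : ℤ) : WithTop ℤ)) ∧ ∑ i, m i = N := by
    refine ⟨fun i => if Assoc π (σ i) then 1 else 0, fun i => ?_, ?_⟩
    · by_cases h : Assoc π (σ i)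
      · rw [hass i h]; simp [h]
      · rw [hnot i h]; simp [h]
    · rw [hN, Nat.card_eq_fintype_card, Fintype.card_subtype]
      simp
  obtain ⟨r, hr⟩ := h_asy π σ Λ hc N hNs hγ
  have hself : ∀ T : ℝ, 0 < T → ‖hSum π σ γ T - hSum π σ γ T‖ ≤ 0 := fun T _ => by simp
  have hex : (∃ i, Assoc π (σ i)) ↔ N ≠ 0 := by
    rw [hN, Nat.card_eq_fintype_card, Ne, Fintype.card_eq_zero_iff, not_isEmpty_iff, nonempty_subtype]
  have gen : ∀ (P : ℝ → ℂ) (C : ℝ), (∀ T : ℝ, 0 < T → ‖hSum π σ γ T - P T‖ ≤ C) →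
      ((∃ i, Assoc π (σ i)) ↔ Tendsto (fun T : ℝ => (P T).re) atTop atTop) ∧
      ((∃ i, Assoc π (σ i)) ↔ ¬ ∃ C : ℝ, ∀ᶠ T : ℝ in atTop, (P T).re ≤ C) := by
    intro P C hPC
    obtain ⟨h1, h2⟩ := alt hr hPC
    have hno : Tendsto (fun T : ℝ => (P T).re) atTop atTop →
        ¬ ∃ C : ℝ, ∀ᶠ T : ℝ in atTop, (P T).re ≤ C := by
      rintro ht ⟨C', hC'⟩
      obtain ⟨T, h3, h4⟩ := (hC'.and (ht.eventually_gt_atTop C')).exists
      exact absurd h3 (not_le.mpr h4)
    rw [hex]
    constructor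
    · refine ⟨h1, fun ht h0 => hno ht (h2 h0)⟩
    · refine ⟨fun h0 => hno (h1 h0), fun hb h0 => hb (h2 h0)⟩
  obtain ⟨g1, g2⟩ := gen (pSum π σ γ) C hC
  obtain ⟨g3, g4⟩ := gen (hSum π σ γ) 0 hself
  refine ⟨fun T hT => ⟨h_summable π σ γ hT, hp T hT⟩, ⟨r, ?_⟩, lim hr hself, lim hr hC, g1, g2, g3, g4⟩
  refine hr.congr_left fun T => ?_
  ring

end Pool.Agent.Results.MP_326854_nt.HeckeTraceCriterion
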