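import Pool.Agent.X290.Reg.Ex
import Pool.Agent.X290.Reg.Two
/-!
# Galois representations unramified outside `p` are compared at `p`

Let `K` be a number field and `K'/K` a finite Galois extension such that `K'` has exactly one prime
above `p` and no Galois extension of `p`-power degree, other than itself, which is unramified at all
finite primes. Let `R`, `S` be continuous representations of `G_K` over a Noetherian local ring `A`
with `p` in the maximal ideal, unramified outside `p` and residually unipotent on `G_{K'}`. Let `D` be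
a decomposition group at `p`, `I` its inertia group. If `R` and `S` have the same characteristic
polynomials on `D`, they have the same characteristic polynomials on `G_K`. Over every field `L` over
`A`, an `L`-linear map which commutes with the action of `D` commutes with the action of `G_K`, and
subspaces stable under `D` are stable under `G_K`. The same holds for `I ∩ G_{K'}` and `G_{K'}`.
-/

set_option autoImplicit false

open NumberField IsLocalRing Matrix

namespace Pool.Agent.Results.MP_326854_nt.LocalTestAtP

/-- The absolute Galois group of `K`. -/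
abbrev G (K : Type) [Field K] : Type := Gal(AlgebraicClosure K/K)

/-- The ring of all algebraic integers. -/
abbrev Z (K : Type) [Field K] : Type := 𝓞 (AlgebraicClosure K)

/-- The field `M` (with all number fields `M'` isomorphic to it) has no Galois extension of degree a
power of `p`, different from `1`, which is unramified at all maximal ideals. -/
def NoUnramified (p : ℕ) (M : Type) [Field M] : Prop :=
  ∀ (M' L : Type) [Field M'] [NumberField M'] [Field L] [NumberField L] [Algebra M' L]
    [IsGalois M' L], Nonempty (M' ≃+* M) →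
    (∀ (Q : Ideal (𝓞 L)) [Q.IsMaximal], Algebra.IsUnramifiedAt (𝓞 M') Q) →
      ∀ k : ℕ, Module.finrank M' L = p ^ k → k = 0

/-- There is at most one maximal ideal above `p`. -/
def OnePrime (p : ℕ) (M : Type) [Field M] : Prop :=
  ∀ P Q : Ideal (𝓞 M), P.IsMaximal → Q.IsMaximal → (p : 𝓞 M) ∈ P → (p : 𝓞 M) ∈ Q → P = Q

/-- The conditions on the field `K'`. -/
def Base {K : Type} [Field K] (p : ℕ) (K' : IntermediateField K (AlgebraicClosure K)) : Prop :=
  FiniteDimensional K K' ∧ IsGalois K K' ∧ NoUnramified p K' ∧ OnePrime p K'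

/-- The conditions on the ring of coefficients. -/
def Coefficients (p : ℕ) (A : Type) [CommRing A] [IsLocalRing A] [TopologicalSpace A] : Prop :=
  IsNoetherianRing A ∧ IsAdic (maximalIdeal A) ∧ (p : A) ∈ maximalIdeal A

variable {K : Type} [Field K]

/-- The inertia group at the prime ideal `P` of the ring of all algebraic integers. -/
def Inertia (P : Ideal (Z K)) : Set (G K) := {τ | ∀ x : Z K, τ • x - x ∈ P}

/-- The decomposition group at the prime ideal `P` of the ring of all algebraic integers. -/
def Decomposition (P : Ideal (Z K)) : Set (G K) := {g | ∀ x : Z K, g • x ∈ P ↔ x ∈ P}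

variable {A : Type} [CommRing A] {m n : ℕ}

/-- `R` is continuous, unramified at all primes that do not lie above `p`, and residually unipotent
on the absolute Galois group of `K'`. -/
def Representation [IsLocalRing A] [TopologicalSpace A] (p : ℕ)
    (K' : IntermediateField K (AlgebraicClosure K)) (R : G K →* GL (Fin m) A) : Prop :=
  Continuous R ∧ (∀ Q : Ideal (Z K), Q.IsMaximal → (p : Z K) ∉ Q → ∀ τ ∈ Inertia Q, R τ = 1) ∧
    ∀ u ∈ K'.fixingSubgroup, IsNilpotent ((R u : Matrix (Fin m) (Fin m) A).map (residue A) - 1)

/-- `R` and `S` have the same characteristic polynomials on `T`. -/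
def SameCharpolys (R : G K →* GL (Fin m) A) (S : G K →* GL (Fin n) A) (T : Set (G K)) : Prop :=
  ∀ g ∈ T, (R g : Matrix (Fin m) (Fin m) A).charpoly = (S g : Matrix (Fin n) (Fin n) A).charpoly

/-- The matrix `C` over `L` commutes with the action of the elements of `T`. -/
def Intertwines (R : G K →* GL (Fin m) A) (S : G K →* GL (Fin n) A) {L : Type} [Field L]
    [Algebra A L] (C : Matrix (Fin n) (Fin m) L) (T : Set (G K)) : Prop :=
  ∀ g ∈ T, C * (R g : Matrix (Fin m) (Fin m) A).map (algebraMap A L) =
    (S g : Matrix (Fin n) (Fin n) A).map (algebraMap A L) * C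

/-- The subspace `W` of `L ^ m` is stable under the elements of `T`. -/
def Stable (R : G K →* GL (Fin m) A) {L : Type} [Field L] [Algebra A L]
    (W : Submodule L (Fin m → L)) (T : Set (G K)) : Prop :=
  ∀ g ∈ T, ∀ w ∈ W, (R g : Matrix (Fin m) (Fin m) A).map (algebraMap A L) *ᵥ w ∈ W

/-- What holds on `T` holds on `T'`: equality of the characteristic polynomials, compatibility of
linear maps with the action, stability of subspaces. -/
def Transfer (R : G K →* GL (Fin m) A) (S : G K →* GL (Fin n) A) (T T' : Set (G K)) : Prop :=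
  (SameCharpolys R S T → SameCharpolys R S T') ∧
  ∀ (L : Type) [Field L] [Algebra A L],
    (∀ C : Matrix (Fin n) (Fin m) L, Intertwines R S C T → Intertwines R S C T') ∧
    ∀ W : Submodule L (Fin m → L), Stable R W T → Stable R W T'

/-- The fields generated by roots of unity of order `3`, `4`, `5`, `12` (for every prime `p`) and
`7` (for `p = 7`). -/
def Example (p : ℕ) (M : Type) [Field M] [NumberField M] : Prop :=
  IsCyclotomicExtension {3} ℚ M ∨ IsCyclotomicExtension {4} ℚ M ∨ IsCyclotomicExtension {5} ℚ M ∨
    IsCyclotomicExtension {12} ℚ M ∨ (p = 7 ∧ IsCyclotomicExtension {7} ℚ M)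

omit [Field K] [CommRing A] in
theorem transfer_of {K A : Type} [Field K] [CommRing A] {m n : ℕ} (R : G K →* GL (Fin m) A)
    (S : G K →* GL (Fin n) A) (T T' : Set (G K))
    (h : ∀ g ∈ T', ∃ d ∈ T, R d = R g ∧ S d = S g) : Transfer R S T T' := by
  refine ⟨fun h1 g hg => ?_, fun L _ _ => ⟨fun C h1 g hg => ?_, fun W h1 g hg => ?_⟩⟩
  · obtain ⟨d, hd, e1, e2⟩ := h g hg
    rw [← e1, ← e2]
    exact h1 d hd
  · obtain ⟨d, hd, e1, e2⟩ := h g hg
    rw [← e1, ← e2]
    exact h1 d hd
  · obtain ⟨d, hd, e1, -⟩ := h g hg
    rw [← e1]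
    exact h1 d hd

/-- The theorem. -/
theorem result :
    (∀ (p : ℕ) [Fact p.Prime] (K : Type) [Field K] [NumberField K]
      (K' : IntermediateField K (AlgebraicClosure K)), Base p K' →
      ∀ P : Ideal (Z K), P.IsMaximal → (p : Z K) ∈ P →
      ∀ (A : Type) [CommRing A] [IsLocalRing A] [TopologicalSpace A], Coefficients p A →
      ∀ (m n : ℕ) (R : G K →* GL (Fin m) A) (S : G K →* GL (Fin n) A),
        Representation p K' R → Representation p K' S →
          Transfer R S (Decomposition P) Set.univ ∧
          Transfer R S (Inertia P ∩ K'.fixingSubgroup) K'.fixingSubgroup) ∧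
    ∀ p : ℕ, p.Prime → ∀ (M : Type) [Field M] [NumberField M], Example p M → NoUnramified p M := by
  refine ⟨?_, ?_⟩
  · rintro p hpf K _ _ K' ⟨_, _, hNU, hone⟩ P hP hpP A _ _ _ ⟨_, hA, hpA⟩ m n R S
      ⟨hR, hur, hres⟩ ⟨hS, hur2, hres2⟩
    have e : IntermediateField.fixedField K'.fixingSubgroup = K' :=
      InfiniteGalois.fixedField_fixingSubgroup K'
    have hUn : K'.fixingSubgroup.Normal :=
      (InfiniteGalois.normal_iff_isGalois K').2 inferInstance
    have hUo : IsOpen (K'.fixingSubgroup : Set Gal(AlgebraicClosure K/K)) :=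
      (InfiniteGalois.isOpen_iff_finite K').2 inferInstance
    have hNU' : Pool.Agent.X290.Reg.NoUnrF p
        (IntermediateField.fixedField K'.fixingSubgroup) := by rw [e]; exact hNU
    have hone' : Pool.Agent.X290.Reg.OnePrime p
        (IntermediateField.fixedField K'.fixingSubgroup) := by rw [e]; exact hone
    have key := Pool.Agent.X290.Reg.two_mainU K'.fixingSubgroup hUo hNU' hone' hA hpA R S hR hur
      hres hS hur2 hres2 hP hpP
    refine ⟨transfer_of R S _ _ fun g _ => ?_, transfer_of R S _ _ fun u hu => ?_⟩
    · obtain ⟨d, hd, e1, e2⟩ := key.2 g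
      exact ⟨d, hd, e1, e2⟩
    · obtain ⟨d, hd, hdU, e1, e2⟩ := key.1 u hu
      exact ⟨d, ⟨hd, hdU⟩, e1, e2⟩
  · rintro p hp M _ _ (h | h | h | h | ⟨rfl, h⟩)
    · exact Pool.Agent.X290.Reg.noUnrF3 hp M
    · exact Pool.Agent.X290.Reg.noUnrF4 hp M
    · exact Pool.Agent.X290.Reg.noUnrF5 hp M
    · exact Pool.Agent.X290.Reg.noUnrF12 hp M
    · exact Pool.Agent.X290.Reg.noUnrF7 M

end Pool.Agent.Results.MP_326854_nt.LocalTestAtP
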